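import Pool.Agent.H64.EV.Targets

/-!
# The pairing and the exchanges
-/

set_option autoImplicit false
set_option linter.unusedSectionVars false

open Matrix Pool.Agent.H64.CC Pool.Agent.H2.NL Pool.Agent.H64.EV

namespace Pool.Agent.H94.EV

variable {K : Type} [Field K] {I : Type} [Fintype I] [DecidableEq I] (F : OForm K I)

private theorem Pr_congr' (n : ℕ) : ∀ (f f' g g' : List I → K),
    (∀ w : List I, w.length = n → f w = f' w) → (∀ w : List I, w.length = n → g w = g' w) →
    F.Pr n f g = F.Pr n f' g' := by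
  induction n with
  | zero => intro f f' g g' hf hg; simp only [OForm.Pr]; rw [hf [] rfl, hg [] rfl]
  | succ n ih =>
    intro f f' g g' hf hg
    simp only [OForm.Pr]
    refine Finset.sum_congr rfl fun a _ => ?_
    rw [ih (fun l => f (a :: l)) (fun l => f' (a :: l)) (fun l => g (F.st a :: l))
      (fun l => g' (F.st a :: l)) (fun w hw => hf _ (by simp [hw])) (fun w hw => hg _ (by simp [hw]))]

private theorem Pr_mul' (n : ℕ) : ∀ (c d : K) (f g : List I → K),
    F.Pr n (fun l => c * f l) (fun l => d * g l) = c * d * F.Pr n f g := by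
  induction n with
  | zero => intro c d f g; simp only [OForm.Pr]; ring
  | succ n ih =>
    intro c d f g
    simp only [OForm.Pr]
    rw [Finset.mul_sum]
    refine Finset.sum_congr rfl fun a _ => ?_
    rw [ih c d (fun l => f (a :: l)) (fun l => g (F.st a :: l))]
    ring

private theorem Pr_sw (j : ℕ) : ∀ (n : ℕ) (f g : List I → K), j + 2 ≤ n →
    F.Pr n (sw F.o j f) (sw F.o j g) = F.Pr n f g := by
  induction j with
  | zero =>
    intro n f g hn
    obtain ⟨m, rfl⟩ : ∃ m, n = m + 2 := ⟨n - 2, by omega⟩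
    have h1 : F.Pr (m + 2) (sw F.o 0 f) (sw F.o 0 g) = ∑ a, ∑ b, F.c a * (F.c b *
        F.Pr m (fun l => f (b :: a :: l)) (fun l => g (F.st b :: F.st a :: l))) := by
      have h2 : F.Pr (m + 2) (sw F.o 0 f) (sw F.o 0 g) = ∑ a, F.c a * ∑ b, F.c b *
        F.Pr m (fun l => sw F.o 0 f (a :: b :: l)) (fun l => sw F.o 0 g (F.st a :: F.st b :: l)) := rfl
      rw [h2]
      refine Finset.sum_congr rfl fun a _ => ?_
      rw [Finset.mul_sum]
      refine Finset.sum_congr rfl fun b _ => ?_
      have h3 : F.Pr m (fun l => sw F.o 0 f (a :: b :: l)) (fun l => sw F.o 0 g (F.st a :: F.st b :: l))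
          = F.Pr m (fun l => ks K (F.o a) (F.o b) * f (b :: a :: l))
            (fun l => ks K (F.o (F.st a)) (F.o (F.st b)) * g (F.st b :: F.st a :: l)) := rfl
      rw [h3, Pr_mul', F.o_st, F.o_st, ks_mul_self, one_mul]
    have h4 : F.Pr (m + 2) f g = ∑ a, F.c a * ∑ b, F.c b *
        F.Pr m (fun l => f (a :: b :: l)) (fun l => g (F.st a :: F.st b :: l)) := rfl
    rw [h1, h4, Finset.sum_comm]
    refine Finset.sum_congr rfl fun b _ => ?_
    rw [Finset.mul_sum]
    refine Finset.sum_congr rfl fun a _ => ?_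
    ring
  | succ j ih =>
    intro n f g hn
    obtain ⟨m, rfl⟩ : ∃ m, n = m + 1 := ⟨n - 1, by omega⟩
    have h1 : F.Pr (m + 1) (sw F.o (j + 1) f) (sw F.o (j + 1) g) = ∑ a, F.c a *
        F.Pr m (sw F.o j (fun l => f (a :: l))) (sw F.o j (fun l => g (F.st a :: l))) := rfl
    have h2 : F.Pr (m + 1) f g = ∑ a, F.c a *
        F.Pr m (fun l => f (a :: l)) (fun l => g (F.st a :: l)) := rfl
    rw [h1, h2]
    refine Finset.sum_congr rfl fun a _ => ?_
    rw [ih m _ _ (by omega)]

/-- OPS: the pairing and the exchanges -/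
theorem pf_OPS : T_OPS := by
  intro K _ I _ _ F n j f g hn
  refine ⟨Pr_sw F j n f g hn, ?_⟩
  have h := Pr_sw F j n f (sw F.o j g) hn
  rw [← h]
  exact Pr_congr' F n _ _ _ _ (fun w _ => rfl) (fun w hw => (sw_sw F.o j g w (by omega)).symm)

end Pool.Agent.H94.EV
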